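import Pool.Agent.R284.RC.Stm

set_option autoImplicit false
open MeasureTheory Set Filter Topology
open scoped ENNReal NNReal

namespace Pool.Agent.R284.RC

namespace MBAux

theorem iq_lt_top {n : ℕ} {q : ℝ} {ρ : Measure (E n)} (hρ : IsProbabilityMeasure ρ)
    (hb : BP q ρ) : Iq q ρ < ⊤ := by
  obtain ⟨B, hB⟩ := hb
  have h1 : Iq q ρ ≤ ∫⁻ _x, (B : ℝ≥0∞) ∂ρ := lintegral_mono fun x => hB x
  refine lt_of_le_of_lt h1 ?_
  simp

theorem nr_compl {n : ℕ} (ρ : Measure (E n)) (D : Set (E n)) (hD : MeasurableSet D) :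
    nr ρ D Dᶜ = 0 := by
  rw [nr, Measure.smul_apply, Measure.restrict_apply hD.compl]
  simp

theorem toReal_ge {n : ℕ} {ρ : Measure (E n)} (hρ : IsProbabilityMeasure ρ) {D : Set (E n)}
    (hD : MeasurableSet D) {ε : ℝ} (hε : 0 ≤ ε) (h : ρ Dᶜ ≤ ENNReal.ofReal ε) :
    1 - ε ≤ (ρ D).toReal := by
  have h1 : ρ D + ρ Dᶜ = 1 := by
    rw [measure_add_measure_compl hD, measure_univ]
  have h2 : (ρ D).toReal + (ρ Dᶜ).toReal = 1 := by
    rw [← ENNReal.toReal_add (measure_ne_top _ _) (measure_ne_top _ _), h1, ENNReal.toReal_one]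
  have h3 : (ρ Dᶜ).toReal ≤ ε := ENNReal.toReal_le_of_le_ofReal hε h
  linarith

theorem toReal_iq {n : ℕ} {q : ℝ} {ρ : Measure (E n)} (hρ : IsProbabilityMeasure ρ)
    (hI : Iq q ρ < ⊤) {D : Set (E n)} {t : ℝ} (ht : 0 < t) (hD : t ≤ (ρ D).toReal)
    {τ : Measure (E n)} (h : Iq q τ ≤ (ρ D)⁻¹ * (ρ D)⁻¹ * Iq q ρ) :
    (Iq q τ).toReal ≤ t⁻¹ * t⁻¹ * (Iq q ρ).toReal := by
  have h0 : ρ D ≠ 0 := by
    intro h0
    rw [h0] at hD
    simp at hD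
    linarith
  have h1 : (Iq q τ).toReal ≤ ((ρ D)⁻¹ * (ρ D)⁻¹ * Iq q ρ).toReal :=
    ENNReal.toReal_mono (ENNReal.mul_ne_top (ENNReal.mul_ne_top (ENNReal.inv_ne_top.2 h0)
      (ENNReal.inv_ne_top.2 h0)) hI.ne) h
  rw [ENNReal.toReal_mul, ENNReal.toReal_mul, ENNReal.toReal_inv] at h1
  have h2 : ((ρ D).toReal)⁻¹ ≤ t⁻¹ := by gcongr
  have h3 : 0 ≤ ((ρ D).toReal)⁻¹ := by positivity
  calc (Iq q τ).toReal ≤ ((ρ D).toReal)⁻¹ * ((ρ D).toReal)⁻¹ * (Iq q ρ).toReal := h1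
    _ ≤ t⁻¹ * t⁻¹ * (Iq q ρ).toReal := by gcongr

theorem phi_pos {p v : ℝ} (h : p ≠ 0 → 0 < v) : 0 < Phi p v := by
  unfold Phi
  split_ifs with hp
  · exact Real.exp_pos _
  · exact Real.rpow_pos_of_pos (h hp) _

theorem step (hl : S_lusin) (h2 : S_br2) (h3 : S_br3) (hc : S_cls) (hi : S_int)
    {n : ℕ} {p q M : ℝ} (hp : 0 ≤ p) (hpq : p < q) (hM : 0 ≤ M)
    (hcap : ∀ K : Set (E n), IsCompact K → 0 < cap p K → cap q K ≤ M * cap p K)
    {ρ : Measure (E n)} (hρ : IsProbabilityMeasure ρ) (hb : BP q ρ) (hs : BS ρ) {v : ℝ}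
    (hv : LowV p ρ v) {ε : ℝ} (hε : 0 < ε) (hε1 : ε < 1) (hvε : p ≠ 0 → 0 < v - ε) :
    Phi p (v - ε) ≤ M * ((1 - ε)⁻¹ * (1 - ε)⁻¹ * (Iq q ρ).toReal) ^ (1 / q) := by
  have hq : 0 < q := lt_of_le_of_lt hp hpq
  obtain ⟨F, hF, hFε, hFE⟩ := hl n p q hp hpq ρ hρ hb hs v hv ε hε
  have hFm : MeasurableSet F := hF.measurableSet
  have hρF : 1 - ε ≤ (ρ F).toReal := toReal_ge hρ hFm hε.le hFε
  have hρF0 : ρ F ≠ 0 := by
    intro h0
    rw [h0] at hρF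
    simp at hρF
    linarith
  obtain ⟨-, -, c3, -, c5⟩ := hc n q ρ inferInstance
  have hρC : ρ ∈ Cls ρ := ⟨hρ, ⟨1, by simp⟩, hs⟩
  obtain ⟨hτC, hτF⟩ := c3 ρ hρC F hFm hρF0
  obtain ⟨hτp, hτb, hτI⟩ := c5 F hFm hρF0
  have hτb := hτb hb
  have hτfin : FinEn p (nr ρ F) (nr ρ F) :=
    (hi n p q hp hpq (nr ρ F) (nr ρ F) inferInstance inferInstance hτb hτC.2.2 hτC.2.2).2.2
  obtain ⟨hc0, hc1⟩ := h2 n p hp F hF (v - ε) hvε hFE ⟨nr ρ F, hτp, hτF, hτfin⟩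
  obtain ⟨hI0, -, hI1⟩ := h3 n q hq F hF (nr ρ F) hτp hτF (iq_lt_top hτp hτb)
  have hI2 := toReal_iq hρ (iq_lt_top hρ hb) (by linarith : 0 < 1 - ε) hρF hτI
  set I0 := (Iq q (nr ρ F)).toReal with hI0def
  have hPhi : 0 < Phi p (v - ε) := phi_pos hvε
  have h4 : I0 ^ (-1 / q) ≤ M * (1 / Phi p (v - ε)) :=
    hI1.trans ((hcap F hF hc0).trans (mul_le_mul_of_nonneg_left hc1 hM))
  have h5 : I0 ^ (-1 / q) * I0 ^ (1 / q) = 1 := by
    rw [← Real.rpow_add hI0]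
    have : -1 / q + 1 / q = 0 := by ring
    rw [this, Real.rpow_zero]
  have h6 : 0 < I0 ^ (1 / q) := Real.rpow_pos_of_pos hI0 _
  have h7 : Phi p (v - ε) ≤ M * I0 ^ (1 / q) := by
    have h8 : I0 ^ (-1 / q) * I0 ^ (1 / q) ≤ M * (1 / Phi p (v - ε)) * I0 ^ (1 / q) :=
      mul_le_mul_of_nonneg_right h4 h6.le
    rw [h5] at h8
    have h9 : Phi p (v - ε) * 1 ≤
        Phi p (v - ε) * (M * (1 / Phi p (v - ε)) * I0 ^ (1 / q)) :=
      mul_le_mul_of_nonneg_left h8 hPhi.le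
    calc Phi p (v - ε) = Phi p (v - ε) * 1 := by ring
      _ ≤ Phi p (v - ε) * (M * (1 / Phi p (v - ε)) * I0 ^ (1 / q)) := h9
      _ = M * I0 ^ (1 / q) := by field_simp
  refine h7.trans (mul_le_mul_of_nonneg_left ?_ hM)
  exact Real.rpow_le_rpow hI0.le hI2 (by positivity)

theorem exists_ball {n : ℕ} {ρ : Measure (E n)} (hρ : IsProbabilityMeasure ρ) {ε : ℝ}
    (hε : 0 < ε) (hε1 : ε < 1) :
    ∃ R : ℝ, 1 - ε ≤ (ρ (Metric.closedBall 0 R)).toReal := by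
  have hmono : Monotone fun k : ℕ => Metric.closedBall (0 : E n) (k : ℝ) := fun a b hab =>
    Metric.closedBall_subset_closedBall (by exact_mod_cast hab)
  have h1 := tendsto_measure_iUnion_atTop (μ := ρ) hmono
  have h2 : (⋃ k : ℕ, Metric.closedBall (0 : E n) (k : ℝ)) = univ :=
    Metric.iUnion_closedBall_nat 0
  rw [h2, measure_univ] at h1
  have h3 : ENNReal.ofReal (1 - ε) < 1 := by
    rw [← ENNReal.ofReal_one]
    exact (ENNReal.ofReal_lt_ofReal_iff one_pos).2 (by linarith)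
  obtain ⟨k, hk⟩ := (h1.eventually (lt_mem_nhds h3)).exists
  refine ⟨k, ?_⟩
  exact (ENNReal.ofReal_le_iff_le_toReal (measure_ne_top _ _)).1 hk.le

end MBAux

open MBAux

theorem mb_proof (hl : S_lusin) (h2 : S_br2) (h3 : S_br3) (hc : S_cls) (hi : S_int) : S_MB := by
  intro n p q hp hpq M hM hcap ρ hρ hb v hv hlow
  have hq : 0 < q := lt_of_le_of_lt hp hpq
  set I := (Iq q ρ).toReal with hI
  have hI0 : 0 ≤ I := ENNReal.toReal_nonneg
  have key : ∀ ε : ℝ, 0 < ε → ε < 1 → (p ≠ 0 → 0 < v - ε) →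
      Phi p (v - ε) ≤ M * ((1 - ε)⁻¹ * (1 - ε)⁻¹ * ((1 - ε)⁻¹ * (1 - ε)⁻¹ * I)) ^ (1 / q) := by
    intro ε hε hε1 hvε
    obtain ⟨R, hR⟩ := exists_ball hρ hε hε1
    set D := Metric.closedBall (0 : E n) R with hD
    have hDm : MeasurableSet D := Metric.isClosed_closedBall.measurableSet
    have hD0 : ρ D ≠ 0 := by
      intro h0
      rw [h0] at hR
      simp at hR
      linarith
    obtain ⟨-, -, -, c4, c5⟩ := hc n q ρ inferInstance
    obtain ⟨hτp, hτb, hτI⟩ := c5 D hDm hD0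
    have hτs : BS (nr ρ D) := ⟨R, nr_compl ρ D hDm⟩
    have hτl : LowV p (nr ρ D) v := fun σ hσ => hlow σ ((c4 D hDm hD0 σ).1 hσ).1
    have h5 := step hl h2 h3 hc hi hp hpq hM hcap hτp (hτb hb) hτs hτl hε hε1 hvε
    have h6 := toReal_iq hρ (iq_lt_top hρ hb) (by linarith : 0 < 1 - ε) hR hτI
    have h7 : 0 < (1 - ε)⁻¹ := inv_pos.2 (by linarith)
    refine h5.trans (mul_le_mul_of_nonneg_left ?_ hM)
    refine Real.rpow_le_rpow (by positivity) ?_ (by positivity)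
    gcongr
  have hf : Tendsto (fun ε : ℝ => Phi p (v - ε)) (𝓝[>] 0) (𝓝 (Phi p v)) := by
    have h0 : ContinuousAt (fun ε : ℝ => Phi p (v - ε)) 0 := by
      unfold Phi
      by_cases hp0 : p = 0
      · simp only [hp0, if_true]
        fun_prop
      · simp only [hp0, if_false]
        have h1 : ContinuousAt (fun ε : ℝ => v - ε) 0 := by fun_prop
        exact h1.rpow_const (Or.inl (by simpa using (hv hp0).ne'))
    have h1 := h0.tendsto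
    simp only [sub_zero] at h1
    exact h1.mono_left nhdsWithin_le_nhds
  have hg : Tendsto (fun ε : ℝ => M * ((1 - ε)⁻¹ * (1 - ε)⁻¹ *
      ((1 - ε)⁻¹ * (1 - ε)⁻¹ * I)) ^ (1 / q)) (𝓝[>] 0) (𝓝 (M * I ^ (1 / q))) := by
    have h0 : ContinuousAt (fun ε : ℝ => M * ((1 - ε)⁻¹ * (1 - ε)⁻¹ *
      ((1 - ε)⁻¹ * (1 - ε)⁻¹ * I)) ^ (1 / q)) 0 := by
      have h1 : ContinuousAt (fun ε : ℝ => (1 - ε)⁻¹) 0 := by
        have h2 : ContinuousAt (fun ε : ℝ => 1 - ε) 0 := by fun_prop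
        exact h2.inv₀ (by norm_num)
      have h3 : ContinuousAt (fun ε : ℝ => ((1 - ε)⁻¹ * (1 - ε)⁻¹ *
          ((1 - ε)⁻¹ * (1 - ε)⁻¹ * I))) 0 :=
        (h1.mul h1).mul ((h1.mul h1).mul continuousAt_const)
      exact continuousAt_const.mul (h3.rpow_const (Or.inr (by positivity)))
    have h1 := h0.tendsto
    simp only [sub_zero, inv_one, one_mul] at h1
    exact h1.mono_left nhdsWithin_le_nhds
  refine le_of_tendsto_of_tendsto hf hg ?_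
  have e1 : ∀ᶠ ε : ℝ in 𝓝[>] 0, 0 < ε := eventually_mem_nhdsWithin
  have e2 : ∀ᶠ ε : ℝ in 𝓝[>] 0, ε < 1 := (eventually_lt_nhds one_pos).filter_mono nhdsWithin_le_nhds
  have e3 : ∀ᶠ ε : ℝ in 𝓝[>] 0, (p ≠ 0 → 0 < v - ε) := by
    by_cases hp0 : p = 0
    · exact Eventually.of_forall fun ε h => absurd hp0 h
    · have : ∀ᶠ ε : ℝ in 𝓝[>] 0, ε < v :=
        (eventually_lt_nhds (hv hp0)).filter_mono nhdsWithin_le_nhds
      filter_upwards [this] with ε h _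
      linarith
  filter_upwards [e1, e2, e3] with ε a b c
  exact key ε a b c

end Pool.Agent.R284.RC
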